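import Pool.Agent.H49.KT.Targets

/-!
Languages with exponential lower bounds for all deciders are not in P.
-/

namespace Pool.Agent.H66.KT

open Turing Function Pool.Agent.H49.KT Filter Topology

theorem eval_le (p : Polynomial ℕ) (n : ℕ) :
    p.eval n ≤ p.eval 1 * (n + 1) ^ p.natDegree := by
  rw [Polynomial.eval_eq_sum_range, Polynomial.eval_eq_sum_range, Finset.sum_mul]
  refine Finset.sum_le_sum fun i hi => ?_
  rw [one_pow, mul_one]
  refine Nat.mul_le_mul_left _ ?_
  have hi' : i ≤ p.natDegree := by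
    have := Finset.mem_range.1 hi
    omega
  exact (Nat.pow_le_pow_left (by omega) i).trans (Nat.pow_le_pow_right (by omega) hi')

theorem poly_lt (C D e : ℕ) : ∀ᶠ n : ℕ in atTop, C * (n + 1) ^ D < 2 ^ (n / (e + 1)) := by
  have h1 : Tendsto (fun q : ℕ => (q : ℝ) ^ D / (2 : ℝ) ^ q) atTop (𝓝 0) :=
    tendsto_pow_const_div_const_pow_of_one_lt D (by norm_num)
  have h2 : ∀ᶠ q : ℕ in atTop, (q : ℝ) ^ D / (2 : ℝ) ^ q < 1 / (2 * (C * (e + 1) ^ D + 1)) :=
    h1.eventually (gt_mem_nhds (by positivity))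
  have h3 : Tendsto (fun n : ℕ => n / (e + 1) + 1) atTop atTop :=
    (tendsto_add_atTop_nat 1).comp (Nat.tendsto_div_const_atTop (by omega))
  filter_upwards [h3.eventually h2] with n hn
  set q := n / (e + 1) + 1 with hq
  have h4 : n + 1 ≤ (e + 1) * q := by
    have := Nat.div_add_mod n (e + 1)
    have h5 := Nat.mod_lt n (show 0 < e + 1 by omega)
    rw [hq, mul_add, mul_one]
    omega
  have h6 : C * (n + 1) ^ D ≤ C * (e + 1) ^ D * q ^ D := by
    rw [mul_assoc, ← mul_pow]
    exact Nat.mul_le_mul_left _ (Nat.pow_le_pow_left h4 D)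
  have h7 : ((C * (e + 1) ^ D * q ^ D : ℕ) : ℝ) < (2 ^ (n / (e + 1)) : ℕ) := by
    rw [div_lt_div_iff₀ (by positivity) (by positivity)] at hn
    have h8 : (2 : ℝ) ^ q = 2 * 2 ^ (n / (e + 1)) := by rw [hq, pow_succ]; ring
    rw [h8] at hn
    push_cast
    have h9 : (0 : ℝ) ≤ (q : ℝ) ^ D := by positivity
    nlinarith
  exact lt_of_le_of_lt h6 (by exact_mod_cast h7)

theorem pf_NP : T_NP := by
  intro e L h hP
  obtain ⟨f, hf, ⟨M⟩⟩ := hP
  have hd : Decides M.toTM2ComputableAux L (fun n => M.time.eval n) := by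
    intro x
    have hx := M.outputsFun x
    refine ⟨fun hxL => ?_, fun hxL => ?_⟩
    · rw [(hf x).2 hxL] at hx
      exact ⟨hx⟩
    · have h0 : f x = false := by
        cases hfx : f x
        · rfl
        · exact absurd ((hf x).1 hfx) hxL
      rw [h0] at hx
      exact ⟨hx⟩
  have h1 := h _ _ hd
  obtain ⟨n, hn1, hn2⟩ := (h1.and (poly_lt (M.time.eval 1) M.time.natDegree e)).exists
  exact absurd (hn1.trans (eval_le M.time n)) (not_le.2 hn2)

end Pool.Agent.H66.KT
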