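import Pool.Agent.H49.KT.Targets

/-!
The piece `prep` of the program.
-/

namespace Pool.Agent.H66.KT

open Turing Function Pool.Agent.H49.KT

theorem pf_PRE : T_PRE := by
  intro U v u z n k hn hk hn' hm
  have a1 := sp_mv2 v u z (x := .n) (y := .n') (y' := .m) (by decide) (by decide)
    (by decide)
  have a2 := sp_mv (v.sa false) u (update (update (update z .n []) .n' ((z .n).reverse ++ z .n'))
    .m ((z .n).reverse ++ z .m)) (x := .n') (y := .n) (by decide)
  have E : update (update (update (update (update z .n []) .n' ((z .n).reverse ++ z .n'))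
    .m ((z .n).reverse ++ z .m)) .n' []) .n (((update (update (update z .n [])
      .n' ((z .n).reverse ++ z .n')) .m ((z .n).reverse ++ z .m)) .n').reverse ++
      (update (update (update z .n []) .n' ((z .n).reverse ++ z .n'))
        .m ((z .n).reverse ++ z .m)) .n) = update z .m (un n) := by
    funext k
    cases k <;> simp [hn, hn', hm]
  rw [E] at a2
  have h := sp_lp_inv (v := v.sa false) (u := u) (z := update z .m (un n)) (x := .lam)
    (c := .seq (popn .m) (.seq (popn .m) (.seq (popn .m) (.seq (popn .m) (popn .m)))))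
    (un k) (by simp [hk])
    (fun i v' u' z' => Reg v v' ∧ u' = u ∧
      z' = update (update z .lam []) .m (un (n - 5 * i)))
    (fun _ => 5)
    (fun i v' u' z' a h => ⟨h.1, h.2⟩)
    ⟨Reg.refl v, rfl, by
      funext k
      cases k <;> simp⟩
    (fun i hi v' u' z' h ha => by
      obtain ⟨h1, rfl, rfl⟩ := h
      have e := (sp_popn v' u' (update (update z .lam []) .m (un (n - 5 * i))) .m).seq
        ((sp_popn _ _ _ .m).seq ((sp_popn _ _ _ .m).seq ((sp_popn _ _ _ .m).seq
          (sp_popn _ _ _ .m))))
      refine ⟨_, _, _, ⟨?_, ?_, ?_⟩, e⟩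
      · exact h1
      · rfl
      · funext k
        cases k <;> simp [List.tail_replicate, Nat.sub_sub, mul_add])
  obtain ⟨v', u', z', ⟨h1, rfl, rfl⟩, h2, h3⟩ := h
  have e := a1.seq (a2.seq h3)
  refine ⟨v', h1, e.1.trans (congrArg _ ?_), e.2.trans ?_⟩
  · funext k
    cases k <;> simp
  · simp [hn, hn']
    omega

end Pool.Agent.H66.KT
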