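import Pool.Agent.H49.KT.Targets

/-!
The piece `rnds` of the program.
-/

namespace Pool.Agent.H66.KT

open Turing Function Pool.Agent.H49.KT

theorem pf_RNS : T_RNS := by
  intro U v u z n hn hp
  have h := sp_lp_inv (v := v) (u := u) (z := z) (x := .pr) (c := .seq (pusha .p) (popn .n))
    (z .pr) rfl
    (fun i v' u' z' => Reg v v' ∧ u' = u ∧
      z' = update (update (update z .pr []) .p ((z .pr).take i).reverse) .n (un (n - i)))
    (fun _ => 2)
    (fun i v' u' z' a h => ⟨h.1, h.2⟩)
    ⟨Reg.refl v, rfl, by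
      funext k
      cases k <;> simp [hn, hp]⟩
    (fun i hi v' u' z' h ha => by
      obtain ⟨h1, rfl, rfl⟩ := h
      have e := (sp_pusha v' u' (update (update (update z .pr []) .p ((z .pr).take i).reverse) .n
        (un (n - i))) .p).seq (sp_popn _ _ _ .n)
      refine ⟨_, _, _, ⟨?_, ?_, ?_⟩, e⟩
      · exact h1
      · rfl
      · rw [take_succ_rev _ _ hi]
        funext k
        cases k <;> simp [ha, List.tail_replicate, Nat.sub_sub])
  obtain ⟨v', u', z', ⟨h1, rfl, rfl⟩, h2, h3⟩ := h
  have e := h3.seq (sp_mv v' u' _ (x := .p) (y := .pr) (by decide))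
  refine ⟨v'.sa false, ⟨h1.1, h1.2⟩, e.1.trans (congrArg _ ?_), e.2.trans ?_⟩
  · funext k
    cases k <;> simp [hp, List.take_length]
  · simp
    omega

end Pool.Agent.H66.KT
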